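import Mathlib
import Pool.Agent.Q97.FF.Final

set_option autoImplicit false

/-!
# An `E`-unitary finitely presented special inverse monoid with right reversible prefix monoid,
solvable word problem in the maximal group image and unsolvable word problem

`SInv R` is the inverse monoid `Inv⟨x₁, …, xₙ ∣ w = 1 (w ∈ R)⟩`: the quotient of the free monoid
on the letters and their formal inverses by the Wagner relations and the relations `w = 1`.
-/

namespace Pool.Agent.Results.MP_ff4305_al.UnsolvableWordProblem

open Pool.Agent.Q97.FF

theorem result : ∃ (n : ℕ) (R : List (List (Fin n ⊕ Fin n))),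
    -- `S = Inv⟨x₁, …, xₙ ∣ w = 1 (w ∈ R)⟩` is an inverse monoid,
    (∀ x : SInv R, ∃! y : SInv R, x * y * x = x ∧ y * x * y = y) ∧
    -- it is `E`-unitary and its prefix monoid is right reversible,
    EUnitary (SInv R) ∧ PrefixRightReversible (SInv R) ∧
    -- the word problem of `S/σ` is solvable,
    ComputablePred (fun p : List (Fin n ⊕ Fin n) × List (Fin n ⊕ Fin n) =>
      Sigma (val R p.1) (val R p.2)) ∧
    -- the word problem of `S` is unsolvable.
    ¬ ComputablePred (fun p : List (Fin n ⊕ Fin n) × List (Fin n ⊕ Fin n) =>
      val R p.1 = val R p.2) :=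
  Conc.inverse_monoid

end Pool.Agent.Results.MP_ff4305_al.UnsolvableWordProblem
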